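import Pool.Agent.D0H24.LY.Stm

/-!
Module EXP of the project LY: Hankel inner products are sums of exponentials.
-/

set_option autoImplicit false

namespace Pool.Agent.D0H9.LY

open Module

theorem pad (n N : ℕ) (hn : n ≤ N) (lam c : Fin n → ℝ) :
    ∃ lam' c' : Fin N → ℝ, ∀ m : ℕ, ∑ i, c i * lam i ^ m = ∑ i, c' i * lam' i ^ m := by
  obtain ⟨k, rfl⟩ := Nat.exists_eq_add_of_le hn
  refine ⟨Fin.append lam 0, Fin.append c 0, fun m => ?_⟩
  rw [Fin.sum_univ_add]
  simp [Fin.append_left, Fin.append_right]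

/-- The shift on the span of a sequence of vectors with Hankel inner products. -/
theorem core {E : Type} [NormedAddCommGroup E] [InnerProductSpace ℝ E] [FiniteDimensional ℝ E]
    (H K : ℕ → E) (h1 : ∀ j l, inner ℝ (H (j + 1)) (H l) = inner ℝ (H j) (H (l + 1)))
    (h2 : ∀ j l, inner ℝ (H (j + 1)) (K l) = inner ℝ (H j) (K (l + 1))) :
    ∃ lam c : Fin (finrank ℝ E) → ℝ, ∀ j l, inner ℝ (H j) (K l) = ∑ i, c i * lam i ^ (j + l) := by
  obtain ⟨Φ, hΦ⟩ : ∃ Φ : (ℕ →₀ ℝ) →ₗ[ℝ] E, Φ = Finsupp.linearCombination ℝ H := ⟨_, rfl⟩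
  obtain ⟨S, hS⟩ : ∃ S : (ℕ →₀ ℝ) →ₗ[ℝ] (ℕ →₀ ℝ), S = Finsupp.lmapDomain ℝ ℝ (fun j => j + 1) :=
    ⟨_, rfl⟩
  have hΦs : ∀ j (r : ℝ), Φ (Finsupp.single j r) = r • H j := by
    intro j r
    rw [hΦ, Finsupp.linearCombination_single]
  have hSs : ∀ j (r : ℝ), S (Finsupp.single j r) = Finsupp.single (j + 1) r := by
    intro j r
    rw [hS, Finsupp.lmapDomain_apply, Finsupp.mapDomain_single]
  have hsym : ∀ a b : ℕ →₀ ℝ, inner ℝ (Φ (S a)) (Φ b) = inner ℝ (Φ a) (Φ (S b)) := by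
    intro a b
    induction a using Finsupp.induction_linear with
    | zero => simp
    | add f g hf hg => simp only [map_add, inner_add_left, hf, hg]
    | single j r =>
      induction b using Finsupp.induction_linear with
      | zero => simp
      | add f g hf hg => simp only [map_add, inner_add_right, hf, hg]
      | single l s =>
        rw [hSs, hSs, hΦs, hΦs, hΦs, hΦs, inner_smul_left, inner_smul_left, inner_smul_right,
          inner_smul_right, h1]
  have hker : LinearMap.ker Φ ≤ LinearMap.ker (Φ.rangeRestrict ∘ₗ S) := by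
    intro a ha
    rw [LinearMap.mem_ker] at ha ⊢
    have h3 := hsym a (S a)
    rw [ha, inner_zero_left] at h3
    have h4 : Φ (S a) = 0 := inner_self_eq_zero.1 h3
    apply Subtype.ext
    simpa using h4
  obtain ⟨T, hT⟩ : ∃ T : LinearMap.range Φ →ₗ[ℝ] LinearMap.range Φ,
      ∀ a, T (Φ.rangeRestrict a) = Φ.rangeRestrict (S a) := by
    refine ⟨((LinearMap.ker Φ).liftQ (Φ.rangeRestrict ∘ₗ S) hker) ∘ₗ
      (Φ.quotKerEquivRange.symm : LinearMap.range Φ →ₗ[ℝ] _), fun a => ?_⟩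
    have h3 : Φ.quotKerEquivRange.symm (Φ.rangeRestrict a) = (LinearMap.ker Φ).mkQ a :=
      Φ.quotKerEquivRange_symm_apply_image a ⟨a, rfl⟩
    rw [LinearMap.comp_apply]
    change ((LinearMap.ker Φ).liftQ (Φ.rangeRestrict ∘ₗ S) hker)
      (Φ.quotKerEquivRange.symm (Φ.rangeRestrict a)) = _
    rw [h3]
    exact Submodule.liftQ_apply _ _ _
  have hTs : T.IsSymmetric := by
    intro x y
    obtain ⟨a, ha⟩ := LinearMap.surjective_rangeRestrict Φ x
    obtain ⟨b, hb⟩ := LinearMap.surjective_rangeRestrict Φ y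
    rw [← ha, ← hb, hT, hT]
    exact hsym a b
  obtain ⟨n, hn⟩ : ∃ n, finrank ℝ (LinearMap.range Φ) = n := ⟨_, rfl⟩
  have hnN : n ≤ finrank ℝ E := by rw [← hn]; exact Submodule.finrank_le _
  obtain ⟨e, he⟩ : ∃ e : OrthonormalBasis (Fin n) ℝ (LinearMap.range Φ),
      ∀ i, T (e i) = (hTs.eigenvalues hn i : ℝ) • e i := by
    refine ⟨hTs.eigenvectorBasis hn, fun i => ?_⟩
    simp
  obtain ⟨lam, hlam⟩ : ∃ lam : Fin n → ℝ, ∀ i, T (e i) = lam i • e i := ⟨_, he⟩
  -- the vectors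
  obtain ⟨w, hw⟩ : ∃ w : ℕ → LinearMap.range Φ, ∀ j, w j = Φ.rangeRestrict (Finsupp.single j 1) :=
    ⟨_, fun j => rfl⟩
  have hwH : ∀ j, ((w j : LinearMap.range Φ) : E) = H j := by
    intro j
    rw [hw]
    change Φ (Finsupp.single j 1) = H j
    rw [hΦs, one_smul]
  have hwT : ∀ j, T (w j) = w (j + 1) := by
    intro j
    rw [hw, hw, hT, hSs]
  have hin : ∀ i j, inner ℝ (e i) (w j) = lam i ^ j * inner ℝ (e i) (w 0) := by
    intro i j
    induction j with
    | zero => simp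
    | succ j ih =>
      rw [← hwT, ← hTs (e i) (w j), hlam, inner_smul_left, ih, pow_succ]
      simp only [conj_trivial]
      ring
  have hsum : ∀ m, inner ℝ (H m) (K 0) =
      ∑ i, (inner ℝ (e i) (w 0) * inner ℝ ((e i : LinearMap.range Φ) : E) (K 0)) * lam i ^ m := by
    intro m
    have h3 : w m = ∑ i, inner ℝ (e i) (w m) • e i := (e.sum_repr' (w m)).symm
    have h4 : H m = ∑ i, inner ℝ (e i) (w m) • ((e i : LinearMap.range Φ) : E) := by
      rw [← hwH m]
      conv_lhs => rw [h3]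
      simp
    rw [h4, sum_inner]
    refine Finset.sum_congr rfl fun i _ => ?_
    rw [inner_smul_left, hin]
    simp only [conj_trivial]
    ring
  have hshift : ∀ l j, inner ℝ (H j) (K l) = inner ℝ (H (j + l)) (K 0) := by
    intro l
    induction l with
    | zero => intro j; rfl
    | succ l ih =>
      intro j
      rw [← h2, ih]
      congr 2
      ring
  obtain ⟨lam', c', h5⟩ := pad n _ hnN lam
    (fun i => inner ℝ (e i) (w 0) * inner ℝ ((e i : LinearMap.range Φ) : E) (K 0))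
  exact ⟨lam', c', fun j l => by rw [hshift, hsum, h5]⟩

/-- Module EXP. -/
theorem t_EXP : Pool.Agent.D0H24.LY.S_EXP := by
  intro ι _ h k h1 h2
  classical
  have hin : ∀ x y : ι → ℝ, inner ℝ (WithLp.toLp 2 x : EuclideanSpace ℝ ι) (WithLp.toLp 2 y) =
      ∑ i, x i * y i := by
    intro x y
    rw [PiLp.inner_apply]
    refine Finset.sum_congr rfl fun i _ => ?_
    simp [mul_comm]
  obtain ⟨lam, c, h3⟩ := core (E := EuclideanSpace ℝ ι) (fun j => WithLp.toLp 2 (h j))
    (fun j => WithLp.toLp 2 (k j)) (fun j l => by rw [hin, hin]; exact h1 j l)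
    (fun j l => by rw [hin, hin]; exact h2 j l)
  obtain ⟨lam', c', h5⟩ := pad _ (Fintype.card ι) (finrank_euclideanSpace (𝕜 := ℝ) (ι := ι)).le lam c
  exact ⟨lam', c', fun j l => by rw [← hin, h3, h5]⟩

end Pool.Agent.D0H9.LY
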